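import Mathlib

open MeasureTheory Topology Filter
open scoped ENNReal ComplexConjugate

namespace Pool.Agent.Results.MP_ca8afd_an.Lexicographic

/-! ### The definitions used in the statement -/

section Statement

variable {S : Type} [MeasurableSpace S]

/-- `L^∞(σ)`: the classes of essentially bounded measurable functions. -/
def LInfty (σ : Measure S) : Set (S →ₘ[σ] ℂ) := {F | ∃ C : ℝ, ∀ᵐ x ∂σ, ‖F x‖ ≤ C}

/-- The closure, in the weak-star topology `σ(L^∞(σ), L¹(σ))` of `L^∞(σ)`, of the set of classes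
of the functions in `E`. -/
def WeakStarClosure (σ : Measure S) (E : Set (S → ℂ)) : Set (S →ₘ[σ] ℂ) :=
  {F | F ∈ LInfty σ ∧ ∀ (n : ℕ) (h : Fin n → S → ℂ), (∀ i, Integrable (h i) σ) → ∀ ε : ℝ, 0 < ε →
    ∃ u ∈ E, ∀ i, ‖∫ x, (F x - u x) * h i x ∂σ‖ < ε}

variable [TopologicalSpace S]

/-- `A_σ`: the weak-star closure in `L^∞(σ)` of (the classes of) `A`. -/
def ASigma (A : Set C(S, ℂ)) (σ : Measure S) : Set (S →ₘ[σ] ℂ) :=
  WeakStarClosure σ {u | ∃ f ∈ A, ∀ s, u s = f s}

/-- Condition (i): every continuous nonzero multiplicative linear functional on `A` is the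
evaluation at exactly one point of `S`. -/
structure CharactersArePoints (A : Subalgebra ℂ C(S, ℂ)) : Prop where
  existsUnique_point : ∀ φ : A →ₗ[ℂ] ℂ, (∀ f g, φ (f * g) = φ f * φ g) → φ ≠ 0 → Continuous φ →
    ∃! s : S, ∀ f : A, φ f = f.1 s

/-- Condition (ii): every `f ∈ A` with `1/f ∈ A` is of the form `exp u` with `u ∈ A`. -/
structure UnitsAreExponentials (A : Set C(S, ℂ)) : Prop where
  exists_log : ∀ f ∈ A, ∀ g ∈ A, f * g = 1 → ∃ u ∈ A, ∀ s, f s = Complex.exp (u s)

/-- Condition (H1): every real-valued element of `A_σ` is constant `σ`-a.e. -/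
def CondH1 (A : Set C(S, ℂ)) (σ : Measure S) : Prop :=
  ∀ F ∈ ASigma A σ, (∀ᵐ x ∂σ, (F x).im = 0) → ∃ c : ℂ, ∀ᵐ x ∂σ, F x = c

/-- Condition (H2): the set of all `f + conj g`, `f, g ∈ A`, is weak-star dense in `L^∞(σ)`. -/
def CondH2 (A : Set C(S, ℂ)) (σ : Measure S) : Prop :=
  LInfty σ ⊆ WeakStarClosure σ {u | ∃ f ∈ A, ∃ g ∈ A, ∀ s, u s = f s + conj (g s)}

/-- `H^∞(𝔻)`: bounded analytic functions on the open unit disk. -/
def HInf : Set (Metric.ball (0 : ℂ) 1 → ℂ) :=
  {f | (∃ C : ℝ, ∀ z, ‖f z‖ ≤ C) ∧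
    ∃ g : ℂ → ℂ, DifferentiableOn ℂ g (Metric.ball 0 1) ∧ ∀ z : Metric.ball (0 : ℂ) 1, f z = g z}

/-- `Φ` restricts to an isomorphism of complex algebras from `A_σ` onto `H^∞(𝔻)`. -/
structure IsAlgIso (A : Set C(S, ℂ)) (σ : Measure S)
    (Φ : (S →ₘ[σ] ℂ) → Metric.ball (0 : ℂ) 1 → ℂ) : Prop where
  bijOn : Set.BijOn Φ (ASigma A σ) HInf
  map_add : ∀ F ∈ ASigma A σ, ∀ G ∈ ASigma A σ, Φ (F + G) = Φ F + Φ G
  map_mul : ∀ F ∈ ASigma A σ, ∀ G ∈ ASigma A σ, Φ (F * G) = Φ F * Φ G
  map_smul : ∀ c : ℂ, ∀ F ∈ ASigma A σ, Φ (c • F) = c • Φ F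

end Statement

/-! ### Auxiliary: `L^∞(σ)` as a topological algebra (not used in the statement) -/

section General

variable {S : Type} [MeasurableSpace S]

/-- The (pointwise a.e.) ring structure on classes of a.e. equal measurable functions. -/
noncomputable instance aeCommRing (σ : Measure S) : CommRing (S →ₘ[σ] ℂ) :=
  { AEEqFun.instAddCommGroup, AEEqFun.instCommMonoid with
    left_distrib := fun f g h => by
      apply AEEqFun.ext
      filter_upwards [AEEqFun.coeFn_mul f (g + h), AEEqFun.coeFn_add g h,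
        AEEqFun.coeFn_add (f * g) (f * h), AEEqFun.coeFn_mul f g, AEEqFun.coeFn_mul f h]
        with x h1 h2 h3 h4 h5
      rw [h1, h3, Pi.mul_apply, h2, Pi.add_apply, Pi.add_apply, h4, h5, Pi.mul_apply,
        Pi.mul_apply, mul_add]
    right_distrib := fun f g h => by
      apply AEEqFun.ext
      filter_upwards [AEEqFun.coeFn_mul (f + g) h, AEEqFun.coeFn_add f g,
        AEEqFun.coeFn_add (f * h) (g * h), AEEqFun.coeFn_mul f h, AEEqFun.coeFn_mul g h]
        with x h1 h2 h3 h4 h5
      rw [h1, h3, Pi.mul_apply, h2, Pi.add_apply, Pi.add_apply, h4, h5, Pi.mul_apply,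
        Pi.mul_apply, add_mul]
    zero_mul := fun f => by
      apply AEEqFun.ext
      filter_upwards [AEEqFun.coeFn_mul 0 f, AEEqFun.coeFn_zero (α := S) (μ := σ) (β := ℂ)]
        with x h1 h2
      rw [h1, Pi.mul_apply, h2, Pi.zero_apply, zero_mul]
    mul_zero := fun f => by
      apply AEEqFun.ext
      filter_upwards [AEEqFun.coeFn_mul f 0, AEEqFun.coeFn_zero (α := S) (μ := σ) (β := ℂ)]
        with x h1 h2
      rw [h1, Pi.mul_apply, h2, Pi.zero_apply, mul_zero] }

/-- The (pointwise a.e.) algebra structure on classes of a.e. equal measurable functions. -/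
noncomputable instance aeAlgebra (σ : Measure S) : Algebra ℂ (S →ₘ[σ] ℂ) :=
  Algebra.ofModule
    (fun c f g => by
      apply AEEqFun.ext
      filter_upwards [AEEqFun.coeFn_mul (c • f) g, AEEqFun.coeFn_smul c f,
        AEEqFun.coeFn_smul c (f * g), AEEqFun.coeFn_mul f g] with x h1 h2 h3 h4
      rw [h1, h3, Pi.mul_apply, h2, Pi.smul_apply, Pi.smul_apply, h4, Pi.mul_apply,
        smul_mul_assoc])
    (fun c f g => by
      apply AEEqFun.ext
      filter_upwards [AEEqFun.coeFn_mul f (c • g), AEEqFun.coeFn_smul c g,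
        AEEqFun.coeFn_smul c (f * g), AEEqFun.coeFn_mul f g] with x h1 h2 h3 h4
      rw [h1, h3, Pi.mul_apply, h2, Pi.smul_apply, Pi.smul_apply, h4, Pi.mul_apply,
        mul_smul_comm])

lemma coeFn_algebraMap (σ : Measure S) (c : ℂ) :
    (algebraMap ℂ (S →ₘ[σ] ℂ) c : S → ℂ) =ᵐ[σ] fun _ => c := by
  rw [Algebra.algebraMap_eq_smul_one]
  filter_upwards [AEEqFun.coeFn_smul c (1 : S →ₘ[σ] ℂ), AEEqFun.coeFn_one (α := S) (μ := σ) (β := ℂ)]
    with x h1 h2
  rw [h1, Pi.smul_apply, h2, Pi.one_apply, smul_eq_mul, mul_one]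

/-- `L^∞(σ)`: the algebra of classes of essentially bounded measurable functions. -/
noncomputable def Linfty (σ : Measure S) : Subalgebra ℂ (S →ₘ[σ] ℂ) where
  carrier := {F | ∃ C : ℝ, ∀ᵐ x ∂σ, ‖F x‖ ≤ C}
  mul_mem' := by
    rintro F G ⟨C, hC⟩ ⟨D, hD⟩
    refine ⟨C * D, ?_⟩
    filter_upwards [hC, hD, AEEqFun.coeFn_mul F G] with x h1 h2 h3
    rw [h3, Pi.mul_apply, norm_mul]
    exact mul_le_mul h1 h2 (norm_nonneg _) ((norm_nonneg _).trans h1)
  add_mem' := by
    rintro F G ⟨C, hC⟩ ⟨D, hD⟩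
    refine ⟨C + D, ?_⟩
    filter_upwards [hC, hD, AEEqFun.coeFn_add F G] with x h1 h2 h3
    rw [h3, Pi.add_apply]
    exact (norm_add_le _ _).trans (add_le_add h1 h2)
  algebraMap_mem' := by
    intro c
    refine ⟨‖c‖, ?_⟩
    filter_upwards [coeFn_algebraMap σ c] with x h1
    rw [h1]

/-- The duality pairing between `L^∞(σ)` and `L¹(σ)`. -/
noncomputable def pairing {σ : Measure S} (F : Linfty σ) (h : Lp ℂ 1 σ) : ℂ :=
  ∫ x, F.1 x * h x ∂σ

/-- The weak-star topology `σ(L^∞(σ), L¹(σ))` on `L^∞(σ)`. -/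
noncomputable instance weakStar (σ : Measure S) : TopologicalSpace (Linfty σ) :=
  TopologicalSpace.induced (fun (F : Linfty σ) (h : Lp ℂ 1 σ) => pairing F h)
    Pi.topologicalSpace

lemma isInducing_pairing (σ : Measure S) :
    IsInducing (fun (F : Linfty σ) (h : Lp ℂ 1 σ) => pairing F h) := ⟨rfl⟩

lemma continuous_pairing {σ : Measure S} (h : Lp ℂ 1 σ) :
    Continuous (fun F : Linfty σ => pairing F h) :=
  (continuous_apply h).comp (isInducing_pairing σ).continuous

lemma continuous_iff_pairing {σ : Measure S} {Y : Type*} [TopologicalSpace Y] {φ : Y → Linfty σ} :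
    Continuous φ ↔ ∀ h : Lp ℂ 1 σ, Continuous fun y => pairing (φ y) h := by
  rw [(isInducing_pairing σ).continuous_iff, continuous_pi_iff]
  rfl

lemma integrable_pairing {σ : Measure S} (F : Linfty σ) (h : Lp ℂ 1 σ) :
    Integrable (fun x => F.1 x * h x) σ := by
  obtain ⟨C, hC⟩ := F.2
  exact (L1.integrable_coeFn h).bdd_mul F.1.aestronglyMeasurable hC

/-- The product of `F ∈ L^∞` and `h ∈ L¹`. -/
noncomputable def mulL1 {σ : Measure S} (F : Linfty σ) (h : Lp ℂ 1 σ) : Lp ℂ 1 σ :=
  (integrable_pairing F h).toL1 _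

lemma coeFn_mulL1 {σ : Measure S} (F : Linfty σ) (h : Lp ℂ 1 σ) :
    (mulL1 F h : S → ℂ) =ᵐ[σ] fun x => F.1 x * h x :=
  Integrable.coeFn_toL1 _

lemma pairing_mul {σ : Measure S} (F G : Linfty σ) (h : Lp ℂ 1 σ) :
    pairing (F * G) h = pairing G (mulL1 F h) := by
  unfold pairing
  refine integral_congr_ae ?_
  filter_upwards [coeFn_mulL1 F h, AEEqFun.coeFn_mul F.1 G.1] with x h1 h2
  show (F.1 * G.1) x * h x = G.1 x * mulL1 F h x
  rw [h1, h2, Pi.mul_apply]
  ring

lemma pairing_add {σ : Measure S} (F G : Linfty σ) (h : Lp ℂ 1 σ) :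
    pairing (F + G) h = pairing F h + pairing G h := by
  unfold pairing
  rw [← integral_add (integrable_pairing F h) (integrable_pairing G h)]
  refine integral_congr_ae ?_
  filter_upwards [AEEqFun.coeFn_add F.1 G.1] with x h2
  show (F.1 + G.1) x * h x = _
  rw [h2, Pi.add_apply]
  ring

instance (σ : Measure S) : IsSemitopologicalSemiring (Linfty σ) where
  continuous_add := by
    rw [continuous_iff_pairing]
    intro h
    simp only [pairing_add]
    exact ((continuous_pairing h).comp continuous_fst).add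
      ((continuous_pairing h).comp continuous_snd)
  continuous_const_mul := by
    intro F
    rw [continuous_iff_pairing]
    intro h
    simp only [pairing_mul]
    exact continuous_pairing _
  continuous_mul_const := by
    intro F
    rw [continuous_iff_pairing]
    intro h
    have : ∀ G : Linfty σ, G * F = F * G := fun G => mul_comm G F
    simp only [this, pairing_mul]
    exact continuous_pairing _

lemma pairing_smul {σ : Measure S} (c : ℂ) (F : Linfty σ) (h : Lp ℂ 1 σ) :
    pairing (c • F) h = c * pairing F h := by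
  unfold pairing
  rw [← integral_const_mul]
  refine integral_congr_ae ?_
  filter_upwards [AEEqFun.coeFn_smul c F.1] with x h2
  show (c • F.1) x * h x = _
  rw [h2, Pi.smul_apply, smul_eq_mul]
  ring

lemma pairing_add_right {σ : Measure S} (F : Linfty σ) (h k : Lp ℂ 1 σ) :
    pairing F (h + k) = pairing F h + pairing F k := by
  unfold pairing
  rw [← integral_add (integrable_pairing F h) (integrable_pairing F k)]
  refine integral_congr_ae ?_
  filter_upwards [Lp.coeFn_add h k] with x h2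
  rw [h2, Pi.add_apply]
  ring

lemma pairing_smul_right {σ : Measure S} (c : ℂ) (F : Linfty σ) (h : Lp ℂ 1 σ) :
    pairing F (c • h) = c * pairing F h := by
  unfold pairing
  rw [← integral_const_mul]
  refine integral_congr_ae ?_
  filter_upwards [Lp.coeFn_smul c h] with x h2
  rw [h2, Pi.smul_apply, smul_eq_mul]
  ring

/-- The pairing as a bilinear map. -/
noncomputable def pairingL (σ : Measure S) : Linfty σ →ₗ[ℂ] Lp ℂ 1 σ →ₗ[ℂ] ℂ :=
  LinearMap.mk₂ ℂ pairing pairing_add pairing_smul pairing_add_right pairing_smul_right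

/-- A subspace of `L^∞(σ)` whose annihilator in `L¹(σ)` is zero is weak-star dense. -/
lemma dense_of_annihilator {σ : Measure S} (W : Submodule ℂ (Linfty σ))
    (hann : ∀ h : Lp ℂ 1 σ, (∀ F ∈ W, pairing F h = 0) → h = 0) :
    Dense (W : Set (Linfty σ)) := by
  intro F₀
  rw [(isInducing_pairing σ).closure_eq_preimage_closure_image]
  show (fun h => pairing F₀ h) ∈ closure _
  rw [mem_closure_iff_nhds]
  intro N hN
  rw [nhds_pi, Filter.mem_pi'] at hN
  obtain ⟨I, t, ht, hN⟩ := hN
  let Λ : Linfty σ →ₗ[ℂ] (I → ℂ) := LinearMap.pi fun h => (pairingL σ).flip h.1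
  have hΛ : Λ F₀ ∈ W.map Λ := by
    by_contra hcon
    obtain ⟨ℓ, hℓ1, hℓ2⟩ := Submodule.exists_le_ker_of_notMem hcon
    classical
    set k : Lp ℂ 1 σ := ∑ h : I, ℓ (Pi.single h 1) • h.1 with hk
    have hpk : ∀ F, pairing F k = ℓ (Λ F) := by
      intro F
      have h1 : pairing F k = pairingL σ F k := rfl
      rw [h1, hk, map_sum]
      have h2 : Λ F = ∑ h : I, (Λ F h) • (Pi.single h (1 : ℂ) : I → ℂ) := by
        ext i
        simp [Finset.sum_apply, Pi.single_apply]
      rw [h2, map_sum]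
      refine Finset.sum_congr rfl fun h _ => ?_
      rw [map_smul, map_smul, smul_eq_mul, smul_eq_mul, mul_comm]
      rfl
    have hk0 : k = 0 := by
      refine hann k fun F hF => ?_
      rw [hpk]
      exact hℓ2 ⟨F, hF, rfl⟩
    apply hℓ1
    rw [← hpk, hk0]
    exact (pairingL σ F₀).map_zero
  obtain ⟨F, hF, hFΛ⟩ := hΛ
  refine ⟨fun h => pairing F h, hN ?_, ⟨F, hF, rfl⟩⟩
  intro h hh
  have h1 : pairing F h = pairing F₀ h := congrFun hFΛ ⟨h, hh⟩
  show pairing F h ∈ t h
  rw [h1]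
  exact mem_of_mem_nhds (ht h)

variable [TopologicalSpace S] [CompactSpace S] [BorelSpace S]

/-- The class in `L^∞(σ)` of a continuous function. -/
noncomputable def toLinfty (σ : Measure S) [IsFiniteMeasure σ] : C(S, ℂ) →ₐ[ℂ] Linfty σ where
  toFun f := ⟨AEEqFun.mk f f.continuous.aestronglyMeasurable, ‖f‖, by
    filter_upwards [AEEqFun.coeFn_mk (f : S → ℂ) f.continuous.aestronglyMeasurable] with x hx
    rw [hx]
    exact f.norm_coe_le_norm x⟩
  map_one' := rfl
  map_mul' f g := by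
    apply Subtype.ext
    exact (AEEqFun.mk_mul_mk _ _ _ _).symm
  map_zero' := rfl
  map_add' f g := by
    apply Subtype.ext
    exact (AEEqFun.mk_add_mk _ _ _ _).symm
  commutes' c := by
    apply Subtype.ext
    apply AEEqFun.ext
    filter_upwards [AEEqFun.coeFn_mk (algebraMap ℂ C(S, ℂ) c : S → ℂ)
      (algebraMap ℂ C(S, ℂ) c).continuous.aestronglyMeasurable, coeFn_algebraMap σ c]
      with x h1 h2
    show (AEEqFun.mk (algebraMap ℂ C(S, ℂ) c : S → ℂ) _ : S → ℂ) x = (algebraMap ℂ (S →ₘ[σ] ℂ) c) x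
    rw [h1, h2]
    rfl

lemma coeFn_toLinfty (σ : Measure S) [IsFiniteMeasure σ] (f : C(S, ℂ)) :
    ((toLinfty σ f).1 : S → ℂ) =ᵐ[σ] f :=
  AEEqFun.coeFn_mk _ _

/-- `A_σ`: the weak-star closure in `L^∞(σ)` of (the classes of) `A`. -/
noncomputable def Asigma (A : Subalgebra ℂ C(S, ℂ)) (σ : Measure S) [IsFiniteMeasure σ] :
    Subalgebra ℂ (Linfty σ) :=
  (A.map (toLinfty σ)).topologicalClosure

lemma norm_pairing_le {σ : Measure S} [IsFiniteMeasure σ] (f : C(S, ℂ)) (h : Lp ℂ 1 σ) :
    ‖pairing (toLinfty σ f) h‖ ≤ ‖f‖ * ∫ x, ‖h x‖ ∂σ := by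
  unfold pairing
  refine (norm_integral_le_integral_norm _).trans ?_
  rw [← integral_const_mul]
  refine integral_mono_ae (integrable_pairing _ h).norm
    ((L1.integrable_coeFn h).norm.const_mul _) ?_
  filter_upwards [coeFn_toLinfty σ f] with x hx
  rw [norm_mul, hx]
  exact mul_le_mul_of_nonneg_right (f.norm_coe_le_norm x) (norm_nonneg _)

/-- The inclusion `C(S) → L^∞(σ)` is continuous from the sup norm to the weak-star topology. -/
lemma continuous_toLinfty (σ : Measure S) [IsFiniteMeasure σ] : Continuous (toLinfty σ) := by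
  rw [continuous_iff_pairing]
  intro h
  let L : C(S, ℂ) →ₗ[ℂ] ℂ := ((pairingL σ).flip h).comp (toLinfty σ).toLinearMap
  have : (fun f => pairing (toLinfty σ f) h) = L := rfl
  rw [this]
  exact (L.mkContinuous (∫ x, ‖h x‖ ∂σ) fun f => by
    rw [mul_comm]; exact norm_pairing_le f h).continuous

/-- Membership in the weak-star closure, from the explicit form of the closure. -/
lemma mem_Asigma_of_mem {A : Subalgebra ℂ C(S, ℂ)} {σ : Measure S} [IsFiniteMeasure σ]
    (F : Linfty σ) (hF : F.1 ∈ ASigma (A : Set C(S, ℂ)) σ) : F ∈ Asigma A σ := by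
  show F ∈ closure ((A.map (toLinfty σ) : Subalgebra ℂ (Linfty σ)) : Set (Linfty σ))
  rw [(isInducing_pairing σ).closure_eq_preimage_closure_image]
  show (fun h => pairing F h) ∈ closure _
  rw [mem_closure_iff_nhds]
  intro N hN
  rw [nhds_pi, Filter.mem_pi'] at hN
  obtain ⟨I, t, ht, hN⟩ := hN
  have hU : Set.pi Set.univ (fun i : I => t i.1) ∈ 𝓝 (fun i : I => pairing F i.1) :=
    set_pi_mem_nhds Set.finite_univ fun i _ => ht i.1
  obtain ⟨ε, hε, hball⟩ := Metric.mem_nhds_iff.1 hU
  obtain ⟨u, ⟨f, hf, hfu⟩, hu⟩ := hF.2 I.card (fun j => ((I.equivFin.symm j : I) : Lp ℂ 1 σ))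
    (fun j => L1.integrable_coeFn _) ε hε
  refine ⟨fun h => pairing (toLinfty σ f) h, hN ?_, ⟨toLinfty σ f, ⟨f, hf, rfl⟩, rfl⟩⟩
  have h1 : (fun i : I => pairing (toLinfty σ f) i.1) ∈ Metric.ball (fun i : I => pairing F i.1) ε := by
    rw [Metric.mem_ball, dist_pi_lt_iff hε]
    intro i
    have h2 := hu (I.equivFin i)
    simp only [Equiv.symm_apply_apply] at h2
    rw [dist_comm, dist_eq_norm]
    refine lt_of_eq_of_lt (congrArg norm ?_) h2
    unfold pairing
    rw [← integral_sub (integrable_pairing F i.1) (integrable_pairing _ i.1)]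
    refine integral_congr_ae ?_
    filter_upwards [coeFn_toLinfty σ f] with x hx
    rw [hx, hfu]
    ring
  have h3 := hball h1
  intro i hi
  exact h3 ⟨i, hi⟩ (Set.mem_univ _)

/-- Weak-star density of a set of classes of continuous functions, in explicit form. -/
lemma mem_closure_explicit {σ : Measure S} [IsFiniteMeasure σ] (W : Set (Linfty σ))
    (E : Set (S → ℂ)) (hW : ∀ G ∈ W, ∃ u ∈ E, (G.1 : S → ℂ) =ᵐ[σ] u) (F : Linfty σ)
    (hF : F ∈ closure W) : F.1 ∈ WeakStarClosure σ E := by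
  refine ⟨F.2, fun n h hint ε hε => ?_⟩
  have hU : {G : Linfty σ | ∀ i, ‖pairing F ((hint i).toL1 _) - pairing G ((hint i).toL1 _)‖ < ε} ∈
      𝓝 F := by
    have h1 : {G : Linfty σ | ∀ i, ‖pairing F ((hint i).toL1 _) -
        pairing G ((hint i).toL1 _)‖ < ε} =
        ⋂ i, {G : Linfty σ | ‖pairing F ((hint i).toL1 _) - pairing G ((hint i).toL1 _)‖ < ε} := by
      ext G; simp
    rw [h1]
    refine (isOpen_iInter_of_finite fun i => ?_).mem_nhds ?_
    · exact isOpen_lt (continuous_const.sub (continuous_pairing _)).norm continuous_const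
    · simp only [Set.mem_iInter, Set.mem_ofPred_eq, sub_self, norm_zero]
      exact fun _ => hε
  obtain ⟨G, hGU, hGW⟩ := mem_closure_iff_nhds.1 hF _ hU
  obtain ⟨u, hu, hGu⟩ := hW G hGW
  refine ⟨u, hu, fun i => ?_⟩
  have h2 := hGU i
  refine lt_of_eq_of_lt (congrArg norm ?_) h2
  unfold pairing
  rw [← integral_sub (integrable_pairing F _) (integrable_pairing G _)]
  refine integral_congr_ae ?_
  filter_upwards [hGu, Integrable.coeFn_toL1 (hint i)] with x hx h3
  rw [h3, hx]
  ring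

lemma mk_mem_ASigma {A : Subalgebra ℂ C(S, ℂ)} {σ : Measure S} [IsFiniteMeasure σ]
    (f : C(S, ℂ)) (hf : f ∈ A) : (toLinfty σ f).1 ∈ ASigma (A : Set C(S, ℂ)) σ := by
  refine ⟨(toLinfty σ f).2, fun n h hint ε hε => ⟨f, ⟨f, hf, fun _ => rfl⟩, fun i => ?_⟩⟩
  have h1 : ∫ x, ((toLinfty σ f).1 x - f x) * h i x ∂σ = ∫ x, (0 : ℂ) ∂σ := by
    refine integral_congr_ae ?_
    filter_upwards [coeFn_toLinfty σ f] with x hx
    rw [hx, sub_self, zero_mul]
  rw [h1]
  simpa using hε

end General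

/-- `H^∞(𝔻)` has no zero divisors. -/
lemma hinf_domain (f g : Metric.ball (0 : ℂ) 1 → ℂ) (hf : f ∈ HInf) (hg : g ∈ HInf)
    (h : f * g = 0) : f = 0 ∨ g = 0 := by
  obtain ⟨_, f', hf', ef⟩ := hf
  obtain ⟨_, g', hg', eg⟩ := hg
  have h1 : ∀ z ∈ Metric.ball (0 : ℂ) 1, f' z * g' z = 0 := by
    intro z hz
    have h3 : f ⟨z, hz⟩ * g ⟨z, hz⟩ = 0 := congrFun h ⟨z, hz⟩
    rwa [ef, eg] at h3
  have ha : AnalyticOnNhd ℂ f' (Metric.ball (0 : ℂ) 1) := hf'.analyticOnNhd Metric.isOpen_ball
  have hb : AnalyticOnNhd ℂ g' (Metric.ball (0 : ℂ) 1) := hg'.analyticOnNhd Metric.isOpen_ball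
  rcases ha.eq_zero_or_eq_zero_of_mul_eq_zero hb h1 (convex_ball (0 : ℂ) 1).isPreconnected with
    h2 | h2
  · left
    funext z
    rw [ef]
    exact h2 z z.2
  · right
    funext z
    rw [eg]
    exact h2 z z.2


/-! ### The example -/

/-- The union of the solid torus `|b| = 1, |a| ≤ 1` and the disk `a = 0, |b| ≤ 1`. -/
def S0 : Set (ℂ × ℂ) := {p | ‖p.1‖ ≤ 1 ∧ ‖p.2‖ ≤ 1 ∧ (p.1 = 0 ∨ ‖p.2‖ = 1)}

/-- The space of the example. -/
abbrev Sp : Type := S0

lemma isCompact_S0 : IsCompact S0 := by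
  have h1 : IsClosed S0 := by
    have e : S0 = {p : ℂ × ℂ | ‖p.1‖ ≤ 1} ∩ ({p : ℂ × ℂ | ‖p.2‖ ≤ 1} ∩
        ({p : ℂ × ℂ | p.1 = 0} ∪ {p : ℂ × ℂ | ‖p.2‖ = 1})) := rfl
    rw [e]
    refine (isClosed_le continuous_fst.norm continuous_const).inter
      ((isClosed_le continuous_snd.norm continuous_const).inter ?_)
    exact (isClosed_eq continuous_fst continuous_const).union
      (isClosed_eq continuous_snd.norm continuous_const)
  refine (isCompact_closedBall (0 : ℂ × ℂ) 1).of_isClosed_subset h1 fun p hp => ?_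
  rw [mem_closedBall_zero_iff, Prod.norm_def]
  exact max_le hp.1 hp.2.1

instance : CompactSpace Sp := isCompact_iff_compactSpace.1 isCompact_S0

/-- The point `(0,0)`. -/
def origin : Sp := ⟨(0, 0), by simp [S0]⟩

instance : Nonempty Sp := ⟨origin⟩

/-- the coordinate `b` -/
def w : C(Sp, ℂ) := ⟨fun p => p.1.2, by fun_prop⟩

/-- the functions `a * conj b ^ n` -/
def z (n : ℕ) : C(Sp, ℂ) := ⟨fun p => p.1.1 * (conj p.1.2) ^ n, by
  have : Continuous (fun p : Sp => conj p.1.2) := Complex.continuous_conj.comp (by fun_prop)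
  fun_prop⟩

lemma w_apply (p : Sp) : w p = p.1.2 := rfl

lemma z_apply (n : ℕ) (p : Sp) : z n p = p.1.1 * (conj p.1.2) ^ n := rfl

/-- the generators -/
def gens : Set C(Sp, ℂ) := {w} ∪ Set.range z

/-- The algebra of the example: the uniformly closed algebra generated by `b` and the
`a * conj b ^ n`. -/
noncomputable def A : Subalgebra ℂ C(Sp, ℂ) := (Algebra.adjoin ℂ gens).topologicalClosure

lemma w_mem : w ∈ A :=
  Subalgebra.le_topologicalClosure _ (Algebra.subset_adjoin (Or.inl rfl))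

lemma z_mem (n : ℕ) : z n ∈ A :=
  Subalgebra.le_topologicalClosure _ (Algebra.subset_adjoin (Or.inr ⟨n, rfl⟩))

lemma isClosed_A : IsClosed (A : Set C(Sp, ℂ)) := Subalgebra.isClosed_topologicalClosure _

lemma mul_conj_of_norm_one {b : ℂ} (hb : ‖b‖ = 1) : b * conj b = 1 := by
  rw [Complex.mul_conj, Complex.normSq_eq_norm_sq, hb]
  norm_num

lemma z_succ_mul_w (n : ℕ) : z (n + 1) * w = z n := by
  ext p
  rw [ContinuousMap.mul_apply, z_apply, z_apply, w_apply]
  rcases p.2.2.2 with h | h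
  · rw [h]; simp
  · rw [pow_succ]
    linear_combination (p.1.1 * conj p.1.2 ^ n) * mul_conj_of_norm_one h

/-- condition (i) -/
lemma characters (φ : A →ₗ[ℂ] ℂ) (hmul : ∀ f g, φ (f * g) = φ f * φ g) (hne : φ ≠ 0)
    (hcont : Continuous φ) : ∃! s : Sp, ∀ f : A, φ f = f.1 s := by
  have hone : φ 1 = 1 := by
    obtain ⟨f, hf⟩ : ∃ f, φ f ≠ 0 := by
      by_contra hcon
      push Not at hcon
      exact hne (LinearMap.ext hcon)
    have h1 := hmul f 1
    rw [mul_one] at h1
    have h2 : φ f * (φ 1 - 1) = 0 := by linear_combination -h1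
    exact sub_eq_zero.1 ((mul_eq_zero.1 h2).resolve_left hf)
  let Φ : A →ₐ[ℂ] ℂ := AlgHom.ofLinearMap φ hone hmul
  have : CompleteSpace A := isClosed_A.completeSpace_coe
  have hnorm : ∀ f : A, ‖φ f‖ ≤ ‖f.1‖ := by
    intro f
    have h1 := AlgHom.norm_apply_le_self_mul_norm_one Φ f
    have h2 : ‖(1 : A)‖ = 1 := by
      show ‖(1 : C(Sp, ℂ))‖ = 1
      exact norm_one
    rw [h2, mul_one] at h1
    exact h1
  have hle : ∀ f : A, (∀ p, ‖f.1 p‖ ≤ 1) → ‖φ f‖ ≤ 1 := fun f hf =>
    (hnorm f).trans ((ContinuousMap.norm_le _ zero_le_one).2 hf)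
  set b := φ ⟨w, w_mem⟩ with hb
  set a : ℕ → ℂ := fun n => φ ⟨z n, z_mem n⟩ with ha
  have hb1 : ‖b‖ ≤ 1 := hle _ fun p => p.2.2.1
  have ha1 : ∀ n, ‖a n‖ ≤ 1 := fun n => hle _ fun p => by
    show ‖p.1.1 * (conj p.1.2) ^ n‖ ≤ 1
    rw [norm_mul, norm_pow, RCLike.norm_conj]
    exact mul_le_one₀ p.2.1 (by positivity) (pow_le_one₀ (norm_nonneg _) p.2.2.1)
  have hrec : ∀ n, a (n + 1) * b = a n := by
    intro n
    show φ ⟨z (n + 1), z_mem (n + 1)⟩ * φ ⟨w, w_mem⟩ = φ ⟨z n, z_mem n⟩
    rw [← hmul]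
    congr 1
    exact Subtype.ext (z_succ_mul_w n)
  have hrec2 : ∀ n k, a n = a (n + k) * b ^ k := by
    intro n k
    induction k with
    | zero => simp
    | succ k ih =>
      rw [ih, ← hrec (n + k), pow_succ, add_assoc]
      ring
  have hsmall : ‖b‖ < 1 → ∀ n, a n = 0 := by
    intro hb n
    have h1 : ∀ k, ‖a n‖ ≤ ‖b‖ ^ k := by
      intro k
      rw [hrec2 n k, norm_mul, norm_pow]
      exact mul_le_of_le_one_left (by positivity) (ha1 _)
    have h2 : ‖a n‖ ≤ 0 :=
      ge_of_tendsto' (tendsto_pow_atTop_nhds_zero_of_lt_one (norm_nonneg b) hb) h1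
    exact norm_le_zero_iff.1 h2
  have hs : (a 0, b) ∈ S0 := by
    refine ⟨ha1 0, hb1, ?_⟩
    rcases hb1.lt_or_eq with h | h
    · exact Or.inl (hsmall h 0)
    · exact Or.inr h
  have hz : ∀ n, a n = a 0 * (conj b) ^ n := by
    intro n
    rcases hb1.lt_or_eq with h | h
    · rw [hsmall h n, hsmall h 0, zero_mul]
    · induction n with
      | zero => simp
      | succ n ih =>
        have h1 := hrec n
        rw [ih] at h1
        have h2 : a (n + 1) = a (n + 1) * (b * conj b) := by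
          rw [mul_conj_of_norm_one h, mul_one]
        rw [h2, ← mul_assoc, h1, pow_succ]
        ring
  refine ⟨⟨(a 0, b), hs⟩, ?_, ?_⟩
  · -- equality on the generated algebra, then on the closure
    have hadj : ∀ f (hf : f ∈ Algebra.adjoin ℂ gens),
        φ ⟨f, Subalgebra.le_topologicalClosure _ hf⟩ = f ⟨(a 0, b), hs⟩ := by
      intro f hf
      induction hf using Algebra.adjoin_induction with
      | mem f hf =>
        rcases hf with hf | ⟨n, rfl⟩
        · have hf' : f = w := hf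
          subst hf'
          rfl
        · exact hz n
      | algebraMap r =>
        have h1 : (⟨algebraMap ℂ C(Sp, ℂ) r, Subalgebra.le_topologicalClosure _
            (Subalgebra.algebraMap_mem _ r)⟩ : A) = r • (1 : A) := by
          apply Subtype.ext
          exact Algebra.algebraMap_eq_smul_one r
        rw [h1, map_smul, hone]
        simp
      | add f g hf hg h1 h2 =>
        have h3 : φ ⟨f + g, Subalgebra.le_topologicalClosure _ (Subalgebra.add_mem _ hf hg)⟩ =
            φ ⟨f, Subalgebra.le_topologicalClosure _ hf⟩ +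
            φ ⟨g, Subalgebra.le_topologicalClosure _ hg⟩ := by
          rw [← map_add]; rfl
        rw [h3, h1, h2]; rfl
      | mul f g hf hg h1 h2 =>
        have h3 : φ ⟨f * g, Subalgebra.le_topologicalClosure _ (Subalgebra.mul_mem _ hf hg)⟩ =
            φ ⟨f, Subalgebra.le_topologicalClosure _ hf⟩ *
            φ ⟨g, Subalgebra.le_topologicalClosure _ hg⟩ := by
          rw [← hmul]; rfl
        rw [h3, h1, h2]; rfl
    rintro ⟨f, hf⟩
    obtain ⟨u, hu, hlim⟩ := mem_closure_iff_seq_limit.1 hf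
    have h1 : Tendsto (fun n => (⟨u n, Subalgebra.le_topologicalClosure _ (hu n)⟩ : A)) atTop
        (𝓝 ⟨f, hf⟩) := tendsto_subtype_rng.2 hlim
    have h2 : Tendsto (fun n => φ ⟨u n, Subalgebra.le_topologicalClosure _ (hu n)⟩) atTop
        (𝓝 (φ ⟨f, hf⟩)) := (hcont.tendsto _).comp h1
    have h3 : Tendsto (fun n => u n ⟨(a 0, b), hs⟩) atTop (𝓝 (f ⟨(a 0, b), hs⟩)) :=
      ((continuous_eval_const (F := C(Sp, ℂ)) (⟨(a 0, b), hs⟩ : Sp)).tendsto f).comp hlim
    refine tendsto_nhds_unique h2 (h3.congr fun n => ?_)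
    exact (hadj _ (hu n)).symm
  · rintro ⟨⟨a', b'⟩, hs'⟩ h
    have h1 : b = b' := h ⟨w, w_mem⟩
    have h2 : a 0 = a' * (conj b') ^ 0 := h ⟨z 0, z_mem 0⟩
    rw [pow_zero, mul_one] at h2
    apply Subtype.ext
    exact Prod.ext h2.symm h1.symm


/-- In a commutative Banach algebra, the end of a path of invertible elements starting at an
exponential is an exponential. -/
lemma exp_path {B : Type} [NormedCommRing B] [NormedAlgebra ℂ B] [CompleteSpace B]
    (γ δ : unitInterval → B) (hγ : Continuous γ) (h : ∀ r, γ r * δ r = 1)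
    (h0 : ∃ u, γ 0 = NormedSpace.exp u) : ∃ u, γ 1 = NormedSpace.exp u := by
  let _ : NormedAlgebra ℚ B := NormedAlgebra.restrictScalars ℚ ℂ B
  have hexp : Set.range (NormedSpace.exp : B → B) ∈ 𝓝 (1 : B) := by
    have h1 : HasStrictFDerivAt (NormedSpace.exp : B → B)
        ((ContinuousLinearEquiv.refl ℂ B : B ≃L[ℂ] B) : B →L[ℂ] B) 0 :=
      hasStrictFDerivAt_exp_zero
    have h2 := h1.map_nhds_eq_of_equiv
    rw [NormedSpace.exp_zero] at h2
    rw [← h2]
    exact range_mem_map
  have hE : IsClopen {r : unitInterval | ∃ u, γ r = NormedSpace.exp u} := by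
    have key : ∀ r : unitInterval, ∀ᶠ r' in 𝓝 r, ∃ u, γ r' * δ r = NormedSpace.exp u := by
      intro r
      have h1 : Tendsto (fun r' => γ r' * δ r) (𝓝 r) (𝓝 (γ r * δ r)) :=
        (hγ.tendsto r).mul_const _
      rw [h r] at h1
      filter_upwards [h1.eventually hexp] with r' hr'
      obtain ⟨u, hu⟩ := hr'
      exact ⟨u, hu.symm⟩
    constructor
    · rw [← isOpen_compl_iff, isOpen_iff_mem_nhds]
      intro r hr
      filter_upwards [key r] with r' hr' hcon
      apply hr
      obtain ⟨u, hu⟩ := hr'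
      obtain ⟨v, hv⟩ := hcon
      refine ⟨v + -u, ?_⟩
      rw [NormedSpace.exp_add, ← hv]
      have h3 : NormedSpace.exp u * NormedSpace.exp (-u) = 1 := by
        rw [← NormedSpace.exp_add, add_neg_cancel, NormedSpace.exp_zero]
      calc γ r = γ r * (NormedSpace.exp u * NormedSpace.exp (-u)) := by rw [h3, mul_one]
        _ = (γ r * δ r) * (γ r' * NormedSpace.exp (-u)) := by rw [← hu]; ring
        _ = γ r' * NormedSpace.exp (-u) := by rw [h r, one_mul]
    · rw [isOpen_iff_mem_nhds]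
      intro r hr
      filter_upwards [key r] with r' hr'
      obtain ⟨u, hu⟩ := hr'
      obtain ⟨v, hv⟩ := hr
      refine ⟨u + v, ?_⟩
      rw [NormedSpace.exp_add, ← hu, ← hv]
      calc γ r' = γ r' * (γ r * δ r) := by rw [h r, mul_one]
        _ = γ r' * δ r * γ r := by ring
  have huniv := hE.eq_univ ⟨0, h0⟩
  have h1 : (1 : unitInterval) ∈ {r : unitInterval | ∃ u, γ r = NormedSpace.exp u} := by
    rw [huniv]; trivial
  exact h1

/-- the homotopy `(a,b) ↦ (ra, b)` -/
def Hmap : C(unitInterval × Sp, Sp) where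
  toFun q := ⟨((q.1 : ℝ) * q.2.1.1, q.2.1.2), by
    refine ⟨?_, q.2.2.2.1, ?_⟩
    · show ‖((q.1 : ℝ) : ℂ) * q.2.1.1‖ ≤ 1
      rw [norm_mul, Complex.norm_real, Real.norm_of_nonneg q.1.2.1]
      exact mul_le_one₀ q.1.2.2 (norm_nonneg _) q.2.2.1
    · rcases q.2.2.2.2 with h | h
      · left
        show ((q.1 : ℝ) : ℂ) * q.2.1.1 = 0
        rw [h, mul_zero]
      · right; exact h⟩
  continuous_toFun := by
    refine Continuous.subtype_mk ?_ _
    fun_prop

/-- the homotopy `(a,b) ↦ (0, rb)` -/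
def Kmap : C(unitInterval × Sp, Sp) where
  toFun q := ⟨(0, (q.1 : ℝ) * q.2.1.2), by
    refine ⟨by simp, ?_, Or.inl rfl⟩
    show ‖((q.1 : ℝ) : ℂ) * q.2.1.2‖ ≤ 1
    rw [norm_mul, Complex.norm_real, Real.norm_of_nonneg q.1.2.1]
    exact mul_le_one₀ q.1.2.2 (norm_nonneg _) q.2.2.2.1⟩
  continuous_toFun := by
    refine Continuous.subtype_mk ?_ _
    fun_prop

/-- A continuous map of `Sp` pulling the generators back into `A` pulls `A` back into `A`. -/
lemma comp_mem (θ : C(Sp, Sp)) (hw : w.comp θ ∈ A) (hz : ∀ n, (z n).comp θ ∈ A)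
    (f : C(Sp, ℂ)) (hf : f ∈ A) : f.comp θ ∈ A := by
  let Ψ : C(Sp, ℂ) →ₐ[ℂ] C(Sp, ℂ) := ContinuousMap.compRightAlgHom ℂ ℂ θ
  have hΨ : Continuous Ψ := ContinuousMap.continuous_precomp θ
  have h1 : Algebra.adjoin ℂ gens ≤ A.comap Ψ := by
    refine Algebra.adjoin_le ?_
    rintro f (hf | ⟨n, rfl⟩)
    · have hf' : f = w := hf
      rw [hf']
      exact hw
    · exact hz n
  have h2 : IsClosed ((A.comap Ψ : Subalgebra ℂ C(Sp, ℂ)) : Set C(Sp, ℂ)) :=
    isClosed_A.preimage hΨ
  exact Subalgebra.topologicalClosure_minimal h1 h2 hf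

lemma comp_H_mem (r : unitInterval) (f : C(Sp, ℂ)) (hf : f ∈ A) : (f.comp Hmap).curry r ∈ A := by
  have h := comp_mem ⟨fun p => Hmap (r, p), by fun_prop⟩ (f := f) ?_ ?_ hf
  · exact h
  · exact w_mem
  · intro n
    have : (z n).comp ⟨fun p => Hmap (r, p), by fun_prop⟩ = ((r : ℝ) : ℂ) • z n := by
      ext p
      show ((r : ℝ) : ℂ) * p.1.1 * (conj p.1.2) ^ n = ((r : ℝ) : ℂ) * (p.1.1 * (conj p.1.2) ^ n)
      ring
    rw [this]
    exact A.smul_mem (z_mem n) _

lemma comp_K_mem (r : unitInterval) (f : C(Sp, ℂ)) (hf : f ∈ A) : (f.comp Kmap).curry r ∈ A := by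
  have h := comp_mem ⟨fun p => Kmap (r, p), by fun_prop⟩ (f := f) ?_ ?_ hf
  · exact h
  · have : w.comp ⟨fun p => Kmap (r, p), by fun_prop⟩ = ((r : ℝ) : ℂ) • w := by
      ext p
      rfl
    rw [this]
    exact A.smul_mem w_mem _
  · intro n
    have : (z n).comp ⟨fun p => Kmap (r, p), by fun_prop⟩ = 0 := by
      ext p
      show (0 : ℂ) * (conj (((r : ℝ) : ℂ) * p.1.2)) ^ n = 0
      rw [zero_mul]
    rw [this]
    exact A.zero_mem

/-- condition (ii) -/
lemma exponentials (f : C(Sp, ℂ)) (hf : f ∈ A) (g : C(Sp, ℂ)) (hg : g ∈ A) (hfg : f * g = 1) :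
    ∃ u ∈ A, ∀ s, f s = Complex.exp (u s) := by
  have : CompleteSpace A := isClosed_A.completeSpace_coe
  let _ : NormedAlgebra ℚ A := NormedAlgebra.restrictScalars ℚ ℂ A
  have hmul : ∀ p, f p * g p = 1 := fun p => by
    rw [← ContinuousMap.mul_apply, hfg, ContinuousMap.one_apply]
  -- evaluation homomorphisms
  have hev : ∀ (u : A) (s : Sp), (NormedSpace.exp u : A).1 s = Complex.exp (u.1 s) := by
    intro u s
    let ev : A →ₐ[ℂ] ℂ := (ContinuousMap.evalAlgHom ℂ ℂ s).comp A.val
    have hevc : Continuous ev :=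
      (continuous_eval_const (F := C(Sp, ℂ)) s).comp continuous_subtype_val
    have h1 := NormedSpace.map_exp ev hevc u
    rw [Complex.exp_eq_exp_ℂ]
    exact h1
  -- first path
  have step1 : ∃ u : A, (⟨(f.comp Kmap).curry 1, comp_K_mem 1 f hf⟩ : A) = NormedSpace.exp u := by
    refine exp_path (B := A) (fun r => ⟨(f.comp Kmap).curry r, comp_K_mem r f hf⟩)
      (fun r => ⟨(g.comp Kmap).curry r, comp_K_mem r g hg⟩) ?_ ?_ ?_
    · exact (f.comp Kmap).curry.continuous.subtype_mk _
    · intro r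
      apply Subtype.ext
      ext p
      exact hmul _
    · have hc : f origin ≠ 0 := left_ne_zero_of_mul_eq_one (hmul origin)
      refine ⟨algebraMap ℂ A (Complex.log (f origin)), ?_⟩
      apply Subtype.ext
      ext p
      rw [hev]
      show f (Kmap (0, p)) = Complex.exp (Complex.log (f origin))
      rw [Complex.exp_log hc]
      congr 1
      apply Subtype.ext
      show ((0 : ℂ), (((0 : unitInterval) : ℝ) : ℂ) * p.1.2) = (0, 0)
      simp
  have step2 : ∃ u : A, (⟨(f.comp Hmap).curry 1, comp_H_mem 1 f hf⟩ : A) = NormedSpace.exp u := by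
    refine exp_path (B := A) (fun r => ⟨(f.comp Hmap).curry r, comp_H_mem r f hf⟩)
      (fun r => ⟨(g.comp Hmap).curry r, comp_H_mem r g hg⟩) ?_ ?_ ?_
    · exact (f.comp Hmap).curry.continuous.subtype_mk _
    · intro r
      apply Subtype.ext
      ext p
      exact hmul _
    · obtain ⟨u, hu⟩ := step1
      refine ⟨u, ?_⟩
      rw [← hu]
      apply Subtype.ext
      ext p
      show f (Hmap (0, p)) = f (Kmap (1, p))
      congr 1
      apply Subtype.ext
      show ((((0 : unitInterval) : ℝ) : ℂ) * p.1.1, p.1.2) =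
        (0, (((1 : unitInterval) : ℝ) : ℂ) * p.1.2)
      simp
  obtain ⟨u, hu⟩ := step2
  refine ⟨u.1, u.2, fun s => ?_⟩
  rw [← hev, ← hu]
  show f s = f (Hmap (1, s))
  congr 1
  apply Subtype.ext
  show s.1 = ((((1 : unitInterval) : ℝ) : ℂ) * s.1.1, s.1.2)
  simp


/-! ### The measure -/

/-- the circle -/
abbrev 𝕋 : Type := AddCircle (1 : ℝ)

lemma norm_fourier (n : ℤ) (x : 𝕋) : ‖fourier n x‖ = 1 := Circle.norm_coe _

/-- the embedding of the torus -/
noncomputable def iota : C(𝕋 × 𝕋, Sp) where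
  toFun q := ⟨(fourier 1 q.1, fourier 1 q.2), (norm_fourier 1 q.1).le, (norm_fourier 1 q.2).le,
    Or.inr (norm_fourier 1 q.2)⟩
  continuous_toFun := by
    refine Continuous.subtype_mk ?_ _
    exact ((fourier 1).continuous.comp continuous_fst).prodMk
      ((fourier 1).continuous.comp continuous_snd)

/-- Haar measure on the torus -/
noncomputable def haar2 : Measure (𝕋 × 𝕋) :=
  (AddCircle.haarAddCircle : Measure 𝕋).prod (AddCircle.haarAddCircle : Measure 𝕋)

instance : IsProbabilityMeasure haar2 := by unfold haar2; infer_instance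

instance : haar2.IsOpenPosMeasure := by unfold haar2; infer_instance

/-- The measure of the example. -/
noncomputable def sig : Measure Sp := haar2.map iota

instance : IsProbabilityMeasure sig :=
  Measure.isProbabilityMeasure_map iota.continuous.measurable.aemeasurable

lemma ae_norm_one : ∀ᵐ p : Sp ∂sig, ‖p.1.1‖ = 1 ∧ ‖p.1.2‖ = 1 := by
  unfold sig
  rw [ae_map_iff iota.continuous.measurable.aemeasurable]
  · exact Eventually.of_forall fun q => ⟨norm_fourier 1 q.1, norm_fourier 1 q.2⟩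
  · have h1 : IsClosed {p : Sp | ‖p.1.1‖ = 1 ∧ ‖p.1.2‖ = 1} := by
      have h2 : Continuous fun p : Sp => ‖p.1.1‖ := by fun_prop
      have h3 : Continuous fun p : Sp => ‖p.1.2‖ := by fun_prop
      exact (isClosed_eq h2 continuous_const).inter (isClosed_eq h3 continuous_const)
    exact h1.measurableSet

lemma integral_sig (f : C(Sp, ℂ)) : ∫ p, f p ∂sig = ∫ q, f (iota q) ∂haar2 := by
  unfold sig
  rw [integral_map iota.continuous.measurable.aemeasurable
    f.continuous.aestronglyMeasurable]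

lemma fourier_pow (n : ℕ) (x : 𝕋) : (fourier 1 x : ℂ) ^ n = fourier n x := by
  induction n with
  | zero => rw [pow_zero]; exact (fourier_zero (x := x)).symm
  | succ n ih =>
    rw [pow_succ, ih, ← fourier_add]
    push_cast
    rfl

lemma conj_fourier_pow (n : ℕ) (x : 𝕋) : (conj (fourier 1 x : ℂ)) ^ n = fourier (-n) x := by
  rw [← map_pow, fourier_pow, fourier_neg]

lemma integral_fourier (n : ℤ) :
    ∫ x : 𝕋, (fourier n x : ℂ) ∂AddCircle.haarAddCircle = if n = 0 then 1 else 0 := by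
  split_ifs with h
  · subst h
    simp only [fourier_zero]
    simp
  · exact integral_eq_zero_of_add_right_eq_neg (μ := AddCircle.haarAddCircle)
      (fourier_add_half_inv_index h one_pos)

/-- the monomials in the algebra generated by the generators -/
lemma monomial_form (f : C(Sp, ℂ)) (hf : f ∈ Submonoid.closure gens) :
    ∃ m k n : ℕ, (m = 0 → n = 0) ∧
      ∀ p : Sp, f p = p.1.1 ^ m * (p.1.2 ^ k * (conj p.1.2) ^ n) := by
  induction hf using Submonoid.closure_induction with
  | mem f hf =>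
    rcases hf with hf | ⟨n, rfl⟩
    · have hf' : f = w := hf
      subst hf'
      exact ⟨0, 1, 0, fun _ => rfl, fun p => by rw [w_apply]; ring⟩
    · exact ⟨1, 0, n, fun h => absurd h one_ne_zero, fun p => by rw [z_apply]; ring⟩
  | one => exact ⟨0, 0, 0, fun _ => rfl, fun p => by simp⟩
  | mul f g _ _ h1 h2 =>
    obtain ⟨m, k, n, h, hf⟩ := h1
    obtain ⟨m', k', n', h', hg⟩ := h2
    refine ⟨m + m', k + k', n + n', fun h0 => ?_, fun p => ?_⟩
    · have h3 := h (by omega)
      have h4 := h' (by omega)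
      omega
    · rw [ContinuousMap.mul_apply, hf, hg]
      ring

lemma integral_monomial (f : C(Sp, ℂ)) (hf : f ∈ Submonoid.closure gens) :
    ∫ p, f p ∂sig = f origin := by
  obtain ⟨m, k, n, h, hf⟩ := monomial_form f hf
  rw [integral_sig]
  have h1 : ∀ q : 𝕋 × 𝕋, f (iota q) = (fourier m q.1 : ℂ) * (fourier (k - n) q.2 : ℂ) := by
    intro q
    rw [hf]
    show (fourier 1 q.1 : ℂ) ^ m * ((fourier 1 q.2 : ℂ) ^ k * (conj (fourier 1 q.2 : ℂ)) ^ n) = _
    rw [fourier_pow, fourier_pow, conj_fourier_pow, ← fourier_add]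
    rfl
  simp only [h1]
  unfold haar2
  rw [integral_prod_mul (fun x : 𝕋 => (fourier m x : ℂ)) (fun x : 𝕋 => (fourier (k - n) x : ℂ)),
    integral_fourier, integral_fourier, hf]
  show _ = (0 : ℂ) ^ m * ((0 : ℂ) ^ k * (conj (0 : ℂ)) ^ n)
  by_cases hm : m = 0
  · have hn := h hm
    subst hm hn
    by_cases hk : k = 0
    · subst hk; simp
    · have hk' : ((k : ℤ) - ((0 : ℕ) : ℤ)) ≠ 0 := by push_cast; omega
      rw [if_neg hk', zero_pow hk]
      simp
  · have hm' : (m : ℤ) ≠ 0 := by omega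
    rw [if_neg hm', zero_pow hm, zero_mul, zero_mul]

/-- The constant `1` in `L¹(σ)`. -/
noncomputable def oneL1 : Lp ℂ 1 sig := (integrable_const (1 : ℂ)).toL1 _

lemma pairing_one (F : Linfty sig) : pairing F oneL1 = ∫ p, F.1 p ∂sig := by
  unfold pairing
  refine integral_congr_ae ?_
  filter_upwards [Integrable.coeFn_toL1 (integrable_const (1 : ℂ) : Integrable _ sig)] with x hx
  show F.1 x * (oneL1 : Sp → ℂ) x = F.1 x
  have : (oneL1 : Sp → ℂ) x = 1 := hx
  rw [this, mul_one]

lemma pairing_toLinfty_one (f : C(Sp, ℂ)) : pairing (toLinfty sig f) oneL1 = ∫ p, f p ∂sig := by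
  rw [pairing_one]
  exact integral_congr_ae (coeFn_toLinfty sig f)

lemma integral_eq_eval (f : C(Sp, ℂ)) (hf : f ∈ A) :
    pairing (toLinfty sig f) oneL1 = f origin := by
  have hc1 : Continuous fun f : C(Sp, ℂ) => pairing (toLinfty sig f) oneL1 :=
    (continuous_pairing _).comp (continuous_toLinfty sig)
  have hc2 : Continuous fun f : C(Sp, ℂ) => f origin := continuous_eval_const _
  let V : Submodule ℂ C(Sp, ℂ) :=
    { carrier := {f | pairing (toLinfty sig f) oneL1 = f origin}
      add_mem' := by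
        intro f g hf hg
        show pairing (toLinfty sig (f + g)) oneL1 = f origin + g origin
        rw [map_add, pairing_add, hf, hg]
      zero_mem' := by
        show pairing (toLinfty sig 0) oneL1 = 0
        rw [map_zero]
        exact congrFun (congrArg DFunLike.coe (pairingL sig).map_zero) oneL1
      smul_mem' := by
        intro c f hf
        show pairing (toLinfty sig (c • f)) oneL1 = c * f origin
        rw [map_smul, pairing_smul, hf] }
  have h1 : (Algebra.adjoin ℂ gens : Set C(Sp, ℂ)) ⊆ V := by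
    have h2 : Subalgebra.toSubmodule (Algebra.adjoin ℂ gens) ≤ V := by
      rw [Algebra.adjoin_eq_span]
      refine Submodule.span_le.2 fun f hf => ?_
      show pairing (toLinfty sig f) oneL1 = f origin
      rw [pairing_toLinfty_one]
      exact integral_monomial f hf
    exact h2
  have h3 : IsClosed (V : Set C(Sp, ℂ)) := isClosed_eq hc1 hc2
  exact closure_minimal h1 h3 hf


/-! ### (H1) -/

lemma map_A_closure_induction (V : Set (Linfty sig)) (hV : IsClosed V)
    (h : ∀ f ∈ A, toLinfty sig f ∈ V) : ∀ F ∈ Asigma A sig, F ∈ V := by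
  intro F hF
  have h1 : ((A.map (toLinfty sig) : Subalgebra ℂ (Linfty sig)) : Set (Linfty sig)) ⊆ V := by
    rintro _ ⟨f, hf, rfl⟩
    exact h f hf
  exact closure_minimal h1 hV hF

lemma multiplicative (F G : Linfty sig) (hF : F ∈ Asigma A sig) (hG : G ∈ Asigma A sig) :
    pairing (F * G) oneL1 = pairing F oneL1 * pairing G oneL1 := by
  have hc : Continuous fun F : Linfty sig => pairing F oneL1 := continuous_pairing _
  have step1 : ∀ g ∈ A, ∀ F ∈ Asigma A sig, pairing (F * toLinfty sig g) oneL1 =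
      pairing F oneL1 * pairing (toLinfty sig g) oneL1 := by
    intro g hg
    refine map_A_closure_induction {F | pairing (F * toLinfty sig g) oneL1 =
      pairing F oneL1 * pairing (toLinfty sig g) oneL1} ?_ ?_
    · exact isClosed_eq (hc.comp (continuous_mul_const _)) (hc.mul continuous_const)
    · intro f hf
      show pairing (toLinfty sig f * toLinfty sig g) oneL1 = _
      rw [← map_mul, integral_eq_eval _ (A.mul_mem hf hg), integral_eq_eval _ hf,
        integral_eq_eval _ hg]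
      rfl
  have step2 : ∀ G ∈ Asigma A sig, pairing (F * G) oneL1 =
      pairing F oneL1 * pairing G oneL1 := by
    refine map_A_closure_induction {G | pairing (F * G) oneL1 =
      pairing F oneL1 * pairing G oneL1} ?_ ?_
    · exact isClosed_eq (hc.comp (continuous_const_mul _)) (continuous_const.mul hc)
    · intro g hg
      exact step1 g hg F hF
  exact step2 G hG

lemma cond_H1 (F : Linfty sig) (hF : F ∈ Asigma A sig) (hreal : ∀ᵐ x ∂sig, (F.1 x).im = 0) :
    ∃ c : ℝ, ∀ᵐ x ∂sig, F.1 x = c := by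
  obtain ⟨C, hC⟩ := F.2
  have hFint : Integrable (F.1 : Sp → ℂ) sig :=
    Integrable.of_bound F.1.aestronglyMeasurable C hC
  set c : ℝ := ∫ x, (F.1 x).re ∂sig with hc
  have hFc : pairing F oneL1 = (c : ℂ) := by
    rw [pairing_one, hc]
    rw [← integral_complex_ofReal]
    refine integral_congr_ae ?_
    filter_upwards [hreal] with x hx
    apply Complex.ext
    · simp
    · simp [hx]
  set G : Linfty sig := F - algebraMap ℂ (Linfty sig) (c : ℂ) with hG
  have hGmem : G ∈ Asigma A sig := Subalgebra.sub_mem _ hF (Subalgebra.algebraMap_mem _ _)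
  have hGx : ∀ᵐ x ∂sig, G.1 x = (((F.1 x).re - c : ℝ) : ℂ) := by
    filter_upwards [hreal, AEEqFun.coeFn_sub F.1 (algebraMap ℂ (Sp →ₘ[sig] ℂ) (c : ℂ)),
      coeFn_algebraMap sig (c : ℂ)] with x h1 h2 h3
    have h4 : G.1 = F.1 - algebraMap ℂ (Sp →ₘ[sig] ℂ) (c : ℂ) := rfl
    rw [h4, h2, Pi.sub_apply, h3]
    apply Complex.ext
    · simp
    · simp [h1]
  have hGint0 : pairing G oneL1 = 0 := by
    have h1 : Integrable (fun x => (F.1 x).re) sig := hFint.re
    rw [pairing_one, integral_congr_ae hGx, integral_complex_ofReal,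
      integral_sub h1 (integrable_const c),
      ← hc]
    simp
  have h2 := multiplicative G G hGmem hGmem
  rw [hGint0, mul_zero, pairing_one] at h2
  have h3 : ∫ x, (((F.1 x).re - c) ^ 2 : ℝ) ∂sig = 0 := by
    have h4 : ∫ x, (G * G).1 x ∂sig = ∫ x, ((((F.1 x).re - c) ^ 2 : ℝ) : ℂ) ∂sig := by
      refine integral_congr_ae ?_
      filter_upwards [hGx, AEEqFun.coeFn_mul G.1 G.1] with x h5 h6
      show (G.1 * G.1) x = _
      rw [h6, Pi.mul_apply, h5]
      push_cast
      ring
    rw [h4, integral_complex_ofReal] at h2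
    exact_mod_cast h2
  have hbdd : Integrable (fun x => (((F.1 x).re - c) ^ 2 : ℝ)) sig := by
    refine Integrable.of_bound (C := (C + |c|) ^ 2) ?_ ?_
    · exact ((hFint.re.aestronglyMeasurable.sub aestronglyMeasurable_const).pow 2)
    · filter_upwards [hC] with x hx
      rw [Real.norm_eq_abs, abs_pow]
      have h5 : |(F.1 x).re - c| ≤ C + |c| := by
        refine (abs_sub _ _).trans ?_
        gcongr
        exact (Complex.abs_re_le_norm _).trans hx
      gcongr
  rw [integral_eq_zero_iff_of_nonneg (fun x => sq_nonneg _) hbdd] at h3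
  refine ⟨c, ?_⟩
  filter_upwards [h3, hreal] with x h5 h6
  have h7 : (F.1 x).re - c = 0 := pow_eq_zero_iff (two_ne_zero) |>.1 h5
  apply Complex.ext
  · rw [Complex.ofReal_re]; linarith
  · rw [Complex.ofReal_im]; exact h6

/-! ### (H2) -/

lemma z_w_mem (m k n : ℕ) : z 0 ^ m * (z n * w ^ k) ∈ A :=
  A.mul_mem (A.pow_mem (z_mem 0) m) (A.mul_mem (z_mem n) (A.pow_mem w_mem k))

/-- the star-invariant set generating `C(Sp)` -/
lemma star_monomial (f : C(Sp, ℂ))
    (hf : f ∈ Submonoid.closure (({w, z 0} : Set C(Sp, ℂ)) ∪ star {w, z 0})) :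
    ∃ a b c d : ℕ, ∀ p : Sp, f p = p.1.1 ^ a * (conj p.1.1) ^ b * (p.1.2 ^ c * (conj p.1.2) ^ d) := by
  induction hf using Submonoid.closure_induction with
  | mem f hf =>
    rcases hf with (hf | hf) | hf
    · subst hf
      exact ⟨0, 0, 1, 0, fun p => by rw [w_apply]; ring⟩
    · have hf' : f = z 0 := hf
      subst hf'
      exact ⟨1, 0, 0, 0, fun p => by rw [z_apply]; ring⟩
    · rw [Set.mem_star] at hf
      rcases hf with hf | hf
      · refine ⟨0, 0, 0, 1, fun p => ?_⟩
        have h1 : star ((star f) p) = f p := star_star _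
        rw [← h1, hf, w_apply]
        simp
      · have hf' : star f = z 0 := hf
        refine ⟨0, 1, 0, 0, fun p => ?_⟩
        have h1 : star ((star f) p) = f p := star_star _
        rw [← h1, hf', z_apply]
        simp
  | one => exact ⟨0, 0, 0, 0, fun p => by simp⟩
  | mul f g _ _ h1 h2 =>
    obtain ⟨a, b, c, d, hf⟩ := h1
    obtain ⟨a', b', c', d', hg⟩ := h2
    refine ⟨a + a', b + b', c + c', d + d', fun p => ?_⟩
    rw [ContinuousMap.mul_apply, hf, hg]
    ring

lemma pairing_toLinfty (f : C(Sp, ℂ)) (h : Lp ℂ 1 sig) :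
    pairing (toLinfty sig f) h = ∫ p, f p * h p ∂sig := by
  unfold pairing
  refine integral_congr_ae ?_
  filter_upwards [coeFn_toLinfty sig f] with x hx
  rw [hx]

lemma pairing_congr (f g : C(Sp, ℂ)) (h : Lp ℂ 1 sig)
    (hfg : ∀ p : Sp, ‖p.1.1‖ = 1 → ‖p.1.2‖ = 1 → f p = g p) :
    pairing (toLinfty sig f) h = pairing (toLinfty sig g) h := by
  rw [pairing_toLinfty, pairing_toLinfty]
  refine integral_congr_ae ?_
  filter_upwards [ae_norm_one] with p hp
  rw [hfg p hp.1 hp.2]

lemma annih_all (h : Lp ℂ 1 sig) (h1 : ∀ f ∈ A, pairing (toLinfty sig f) h = 0)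
    (h2 : ∀ f ∈ A, pairing (toLinfty sig (star f)) h = 0) (u : C(Sp, ℂ)) :
    pairing (toLinfty sig u) h = 0 := by
  let V : Submodule ℂ C(Sp, ℂ) :=
    { carrier := {f | pairing (toLinfty sig f) h = 0}
      add_mem' := by
        intro f g hf hg
        show pairing (toLinfty sig (f + g)) h = 0
        rw [map_add, pairing_add, hf, hg, add_zero]
      zero_mem' := by
        show pairing (toLinfty sig 0) h = 0
        rw [map_zero]
        exact congrFun (congrArg DFunLike.coe (pairingL sig).map_zero) h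
      smul_mem' := by
        intro c f hf
        show pairing (toLinfty sig (c • f)) h = 0
        rw [map_smul, pairing_smul, hf, mul_zero] }
  have hVc : IsClosed (V : Set C(Sp, ℂ)) :=
    isClosed_eq ((continuous_pairing _).comp (continuous_toLinfty sig)) continuous_const
  -- the dense star subalgebra
  have hmon : ∀ f ∈ Submonoid.closure (({w, z 0} : Set C(Sp, ℂ)) ∪ star {w, z 0}), f ∈ V := by
    intro f hf
    obtain ⟨a, b, c, d, hf⟩ := star_monomial f hf
    show pairing (toLinfty sig f) h = 0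
    rcases lt_trichotomy a b with hab | hab | hab
    · -- a < b
      obtain ⟨m, rfl⟩ : ∃ m, b = a + m + 1 := ⟨b - a - 1, by omega⟩
      rw [← h2 _ (z_w_mem m d c)]
      refine pairing_congr _ _ h fun p hp1 hp2 => ?_
      rw [hf]
      show _ = star ((z 0 ^ m * (z c * w ^ d)) p)
      rw [ContinuousMap.mul_apply, ContinuousMap.pow_apply, ContinuousMap.mul_apply,
        ContinuousMap.pow_apply, z_apply, z_apply, w_apply]
      simp only [star_mul', star_pow, RCLike.star_def, Complex.conj_conj, pow_zero, mul_one]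
      have e1 : p.1.1 ^ a * (conj p.1.1) ^ (a + m + 1) = (conj p.1.1) ^ (m + 1) := by
        have : p.1.1 ^ a * (conj p.1.1) ^ (a + m + 1) =
            (p.1.1 * conj p.1.1) ^ a * (conj p.1.1) ^ (m + 1) := by ring
        rw [this, mul_conj_of_norm_one hp1, one_pow, one_mul]
      rw [e1]
      ring
    · -- a = b
      subst hab
      have e1 : ∀ p : Sp, ‖p.1.1‖ = 1 → p.1.1 ^ a * (conj p.1.1) ^ a = 1 := by
        intro p hp1
        rw [← mul_pow, mul_conj_of_norm_one hp1, one_pow]
      rcases le_total d c with hcd | hcd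
      · obtain ⟨k, rfl⟩ : ∃ k, c = d + k := ⟨c - d, by omega⟩
        rw [← h1 _ (A.pow_mem w_mem k)]
        refine pairing_congr _ _ h fun p hp1 hp2 => ?_
        rw [hf, e1 p hp1, ContinuousMap.pow_apply, w_apply]
        have : p.1.2 ^ (d + k) * (conj p.1.2) ^ d = (p.1.2 * conj p.1.2) ^ d * p.1.2 ^ k := by ring
        rw [this, mul_conj_of_norm_one hp2, one_pow, one_mul, one_mul]
      · obtain ⟨k, rfl⟩ : ∃ k, d = c + k := ⟨d - c, by omega⟩
        rw [← h2 _ (A.pow_mem w_mem k)]
        refine pairing_congr _ _ h fun p hp1 hp2 => ?_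
        rw [hf, e1 p hp1]
        show _ = star ((w ^ k) p)
        rw [ContinuousMap.pow_apply, w_apply, star_pow]
        have : p.1.2 ^ c * (conj p.1.2) ^ (c + k) =
            (p.1.2 * conj p.1.2) ^ c * (conj p.1.2) ^ k := by ring
        rw [this, mul_conj_of_norm_one hp2, one_pow, one_mul, one_mul]
        rfl
    · -- a > b
      obtain ⟨m, rfl⟩ : ∃ m, a = b + m + 1 := ⟨a - b - 1, by omega⟩
      rw [← h1 _ (z_w_mem m c d)]
      refine pairing_congr _ _ h fun p hp1 hp2 => ?_
      rw [hf, ContinuousMap.mul_apply, ContinuousMap.pow_apply, ContinuousMap.mul_apply,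
        ContinuousMap.pow_apply, z_apply, z_apply, w_apply]
      have e1 : p.1.1 ^ (b + m + 1) * (conj p.1.1) ^ b = p.1.1 ^ (m + 1) := by
        have : p.1.1 ^ (b + m + 1) * (conj p.1.1) ^ b =
            (p.1.1 * conj p.1.1) ^ b * p.1.1 ^ (m + 1) := by ring
        rw [this, mul_conj_of_norm_one hp1, one_pow, one_mul]
      rw [e1]
      ring
  set B : StarSubalgebra ℂ C(Sp, ℂ) := StarAlgebra.adjoin ℂ {w, z 0} with hB
  have hBV : (B : Set C(Sp, ℂ)) ⊆ V := by
    have h3 : Subalgebra.toSubmodule B.toSubalgebra ≤ V := by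
      rw [hB, StarAlgebra.adjoin_toSubalgebra, Algebra.adjoin_eq_span]
      exact Submodule.span_le.2 hmon
    exact h3
  have hsep : B.SeparatesPoints := by
    intro p q hpq
    by_cases h3 : p.1.2 = q.1.2
    · have h4 : p.1.1 ≠ q.1.1 := fun h4 => hpq (Subtype.ext (Prod.ext h4 h3))
      refine ⟨z 0, ⟨z 0, StarAlgebra.subset_adjoin ℂ _ (by simp), rfl⟩, ?_⟩
      show z 0 p ≠ z 0 q
      rw [z_apply, z_apply, pow_zero, pow_zero, mul_one, mul_one]
      exact h4
    · exact ⟨w, ⟨w, StarAlgebra.subset_adjoin ℂ _ (by simp), rfl⟩, h3⟩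
  have htop := ContinuousMap.starSubalgebra_topologicalClosure_eq_top_of_separatesPoints B hsep
  have hu : u ∈ B.topologicalClosure := by rw [htop]; trivial
  have hu' : u ∈ closure (B : Set C(Sp, ℂ)) := hu
  exact closure_minimal hBV hVc hu'


lemma annih_zero (h : Lp ℂ 1 sig) (hall : ∀ u : C(Sp, ℂ), pairing (toLinfty sig u) h = 0) :
    h = 0 := by
  have hint : Integrable (h : Sp → ℂ) sig := L1.integrable_coeFn h
  have h0 : (h : Sp → ℂ) =ᵐ[sig] 0 := by
    refine ae_eq_zero_of_forall_setIntegral_isClosed_eq_zero hint fun E hE => ?_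
    have hpos : ∀ n : ℕ, (0 : ℝ) < 1 / ((n : ℝ) + 1) := fun n => by positivity
    let θ : ℕ → C(Sp, ℂ) := fun n =>
      ⟨fun x => ((thickenedIndicator (hpos n) E x : ℝ) : ℂ), by
        have h1 := (thickenedIndicator (hpos n) E).continuous
        exact Complex.continuous_ofReal.comp (NNReal.continuous_coe.comp h1)⟩
    have hlim : Tendsto (fun n => ∫ x, θ n x * h x ∂sig) atTop
        (𝓝 (∫ x, E.indicator (fun x => h x) x ∂sig)) := by
      refine tendsto_integral_of_dominated_convergence (fun x => ‖h x‖) ?_ hint.norm ?_ ?_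
      · intro n
        exact (θ n).continuous.aestronglyMeasurable.mul hint.aestronglyMeasurable
      · intro n
        refine Eventually.of_forall fun x => ?_
        rw [norm_mul]
        refine mul_le_of_le_one_left (norm_nonneg _) ?_
        show ‖((thickenedIndicator (hpos n) E x : ℝ) : ℂ)‖ ≤ 1
        rw [Complex.norm_real, Real.norm_of_nonneg (NNReal.coe_nonneg _)]
        exact_mod_cast thickenedIndicator_le_one (hpos n) E x
      · refine Eventually.of_forall fun x => ?_
        have h2 := thickenedIndicator_tendsto_indicator_closure hpos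
          tendsto_one_div_add_atTop_nhds_zero_nat E
        rw [tendsto_pi_nhds] at h2
        have h3 := h2 x
        rw [hE.closure_eq] at h3
        have h4 : Tendsto (fun n => θ n x) atTop
            (𝓝 ((((E.indicator (fun _ => (1 : NNReal)) x : NNReal) : ℝ) : ℂ))) :=
          ((Complex.continuous_ofReal.comp NNReal.continuous_coe).tendsto _).comp h3
        have h5 := h4.mul_const (h x)
        convert h5 using 2
        by_cases hx : x ∈ E
        · simp [hx]
        · simp [hx]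
    have hz : ∀ n, ∫ x, θ n x * h x ∂sig = 0 := fun n => by
      rw [← pairing_toLinfty]; exact hall _
    simp only [hz] at hlim
    have h6 := tendsto_nhds_unique hlim tendsto_const_nhds
    rw [integral_indicator hE.measurableSet] at h6
    exact h6
  exact Lp.ext (h0.trans (Lp.coeFn_zero ℂ 1 sig).symm)

lemma cond_H2 : Dense {F : Linfty sig | ∃ f ∈ A, ∃ g ∈ A, F = toLinfty sig (f + star g)} := by
  let W : Submodule ℂ (Linfty sig) :=
    { carrier := {F : Linfty sig | ∃ f ∈ A, ∃ g ∈ A, F = toLinfty sig (f + star g)}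
      add_mem' := by
        rintro _ _ ⟨f, hf, g, hg, rfl⟩ ⟨f', hf', g', hg', rfl⟩
        refine ⟨f + f', A.add_mem hf hf', g + g', A.add_mem hg hg', ?_⟩
        rw [← map_add]
        congr 1
        rw [star_add]
        abel
      zero_mem' := ⟨0, A.zero_mem, 0, A.zero_mem, by rw [star_zero, add_zero, map_zero]⟩
      smul_mem' := by
        rintro c _ ⟨f, hf, g, hg, rfl⟩
        refine ⟨c • f, A.smul_mem hf c, (star c) • g, A.smul_mem hg _, ?_⟩
        rw [← map_smul, star_smul, star_star, smul_add] }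
  refine dense_of_annihilator W fun h hh => annih_zero h (annih_all h (fun f hf => ?_)
    (fun f hf => ?_))
  · exact hh _ ⟨f, hf, 0, A.zero_mem, by rw [star_zero, add_zero]⟩
  · exact hh _ ⟨0, A.zero_mem, f, hf, by rw [zero_add]⟩

/-! ### Support and injectivity -/

lemma iota_mem_support (q : 𝕋 × 𝕋) : iota q ∈ sig.support := by
  rw [Measure.mem_support_iff_forall]
  intro U hU
  obtain ⟨V, hVU, hV, hqV⟩ := mem_nhds_iff.1 hU
  refine lt_of_lt_of_le ?_ (measure_mono hVU)
  unfold sig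
  rw [Measure.map_apply iota.continuous.measurable hV.measurableSet]
  exact (hV.preimage iota.continuous).measure_pos haar2 ⟨q, hqV⟩

lemma eq_zero_on_torus (f : C(Sp, ℂ)) (hf : toLinfty sig f = 0) (q : 𝕋 × 𝕋) :
    f (iota q) = 0 := by
  have h1 : (f : Sp → ℂ) =ᵐ[sig] 0 := by
    have h2 : (toLinfty sig f).1 = (0 : Sp →ₘ[sig] ℂ) := congrArg Subtype.val hf
    have h3 := coeFn_toLinfty sig f
    rw [h2] at h3
    exact h3.symm.trans AEEqFun.coeFn_zero
  have h4 : (fun q => f (iota q)) =ᵐ[haar2] fun _ => 0 := by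
    have h5 := iota.continuous.measurable.aemeasurable (μ := haar2)
    exact ae_of_ae_map h5 h1
  have h6 := (Continuous.ae_eq_iff_eq haar2 (f.continuous.comp iota.continuous)
    continuous_const).1 h4
  exact congrFun h6 q

/-! ### Zero divisors -/

/-- the closed unit disk -/
abbrev DD : Type := Metric.closedBall (0 : ℂ) 1

/-- `g ↦ a g(b)` -/
noncomputable def psi (g : C(DD, ℂ)) : C(Sp, ℂ) where
  toFun p := p.1.1 * g ⟨p.1.2, mem_closedBall_zero_iff.2 p.2.2.1⟩
  continuous_toFun := by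
    have h1 : Continuous fun p : Sp => (⟨p.1.2, mem_closedBall_zero_iff.2 p.2.2.1⟩ : DD) := by
      refine Continuous.subtype_mk ?_ _
      fun_prop
    have h2 : Continuous fun p : Sp => p.1.1 := by fun_prop
    exact h2.mul (g.continuous.comp h1)

lemma psi_mem (g : C(DD, ℂ)) : psi g ∈ A := by
  let Ψ : C(DD, ℂ) →ₗ[ℂ] C(Sp, ℂ) :=
    { toFun := psi
      map_add' := by
        intro g h
        ext p
        show p.1.1 * (g _ + h _) = p.1.1 * g _ + p.1.1 * h _
        ring
      map_smul' := by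
        intro c g
        ext p
        show p.1.1 * (c * g _) = c * (p.1.1 * g _)
        ring }
  have hΨ : Continuous Ψ := by
    refine (Ψ.mkContinuous 1 fun g => ?_).continuous
    rw [one_mul]
    refine (ContinuousMap.norm_le _ (norm_nonneg _)).2 fun p => ?_
    show ‖p.1.1 * g _‖ ≤ _
    rw [norm_mul]
    exact (mul_le_of_le_one_left (norm_nonneg _) p.2.1).trans (g.norm_coe_le_norm _)
  let V : Submodule ℂ C(DD, ℂ) := (Subalgebra.toSubmodule A).comap Ψ
  have hV : IsClosed (V : Set C(DD, ℂ)) := isClosed_A.preimage hΨ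
  let idD : C(DD, ℂ) := ⟨fun b => b.1, continuous_subtype_val⟩
  set B : StarSubalgebra ℂ C(DD, ℂ) := StarAlgebra.adjoin ℂ {idD} with hB
  have hmon : ∀ f ∈ Submonoid.closure (({idD} : Set C(DD, ℂ)) ∪ star {idD}), f ∈ V := by
    intro f hf
    have hform : ∃ k n : ℕ, ∀ b : DD, f b = b.1 ^ k * (conj b.1) ^ n := by
      induction hf using Submonoid.closure_induction with
      | mem f hf =>
        rcases hf with hf | hf
        · have hf' : f = idD := hf
          subst hf'
          exact ⟨1, 0, fun b => by rw [pow_one, pow_zero, mul_one]; rfl⟩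
        · have hf' : star f = idD := hf
          refine ⟨0, 1, fun b => ?_⟩
          have h1 : star ((star f) b) = f b := star_star _
          rw [← h1, hf', pow_zero, pow_one, one_mul]
          rfl
      | one => exact ⟨0, 0, fun b => by simp⟩
      | mul f g _ _ h1 h2 =>
        obtain ⟨k, n, hf⟩ := h1
        obtain ⟨k', n', hg⟩ := h2
        refine ⟨k + k', n + n', fun b => ?_⟩
        rw [ContinuousMap.mul_apply, hf, hg]
        ring
    obtain ⟨k, n, hf⟩ := hform
    show psi f ∈ A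
    have h1 : psi f = z n * w ^ k := by
      ext p
      rw [ContinuousMap.mul_apply, ContinuousMap.pow_apply, z_apply, w_apply]
      show p.1.1 * f _ = _
      rw [hf]
      ring
    rw [h1]
    exact A.mul_mem (z_mem n) (A.pow_mem w_mem k)
  have hBV : (B : Set C(DD, ℂ)) ⊆ V := by
    have h3 : Subalgebra.toSubmodule B.toSubalgebra ≤ V := by
      rw [hB, StarAlgebra.adjoin_toSubalgebra, Algebra.adjoin_eq_span]
      exact Submodule.span_le.2 hmon
    exact h3
  have hsep : B.SeparatesPoints := by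
    intro p q hpq
    exact ⟨idD, ⟨idD, StarAlgebra.subset_adjoin ℂ _ (by simp), rfl⟩, fun h => hpq (Subtype.ext h)⟩
  have htop := ContinuousMap.starSubalgebra_topologicalClosure_eq_top_of_separatesPoints B hsep
  have hu : g ∈ B.topologicalClosure := by rw [htop]; trivial
  have hu' : g ∈ closure (B : Set C(DD, ℂ)) := hu
  exact closure_minimal hBV hV hu'

/-- `max (± Re b) 0` -/
noncomputable def gpos (s : ℝ) : C(DD, ℂ) :=
  ⟨fun b => ((max (s * b.1.re) 0 : ℝ) : ℂ), by
    have h1 : Continuous fun b : DD => b.1.re := Complex.continuous_re.comp continuous_subtype_val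
    exact Complex.continuous_ofReal.comp ((continuous_const.mul h1).max continuous_const)⟩

lemma psi_mul_psi : psi (gpos 1) * psi (gpos (-1)) = 0 := by
  ext p
  show (p.1.1 * ((max (1 * p.1.2.re) 0 : ℝ) : ℂ)) * (p.1.1 * ((max (-1 * p.1.2.re) 0 : ℝ) : ℂ)) = 0
  rcases le_total 0 p.1.2.re with h | h
  · have : max (-1 * p.1.2.re) 0 = 0 := max_eq_right (by linarith)
    rw [this]; simp
  · have : max (1 * p.1.2.re) 0 = 0 := max_eq_right (by linarith)
    rw [this]; simp

lemma psi_gpos_ne (s : ℝ) (x : 𝕋) (hx : (fourier 1 x : ℂ) = s) (hs : s * s = 1) :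
    toLinfty sig (psi (gpos s)) ≠ 0 := by
  intro h0
  have h1 := eq_zero_on_torus _ h0 (0, x)
  have h2 : (fourier 1 (0 : 𝕋) : ℂ) * ((max (s * (fourier 1 x : ℂ).re) 0 : ℝ) : ℂ) = 0 := h1
  rw [fourier_eval_zero, hx, Complex.ofReal_re, hs, one_mul] at h2
  norm_num at h2

/-- The answer to the problem is negative: there are a compact Hausdorff space `S`, a closed
subalgebra `A` of `C(S)` containing the constants and a finite positive Borel measure `σ` on `S`
whose support has more than one point, satisfying (i), (ii), (H1) and (H2), such that `A_σ` is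
not isomorphic to `H^∞(𝔻)`. -/
theorem result :
    ∃ (S : Type) (_ : TopologicalSpace S) (_ : CompactSpace S) (_ : T2Space S)
      (_ : MeasurableSpace S) (_ : BorelSpace S) (A : Subalgebra ℂ C(S, ℂ))
      (σ : Measure S) (_ : IsFiniteMeasure σ),
      IsClosed (A : Set C(S, ℂ)) ∧ CharactersArePoints A ∧
      UnitsAreExponentials (A : Set C(S, ℂ)) ∧ σ.support.Nontrivial ∧
      CondH1 (A : Set C(S, ℂ)) σ ∧ CondH2 (A : Set C(S, ℂ)) σ ∧
      ¬ ∃ Φ, IsAlgIso (A : Set C(S, ℂ)) σ Φ := by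
  refine ⟨Sp, inferInstance, inferInstance, inferInstance, inferInstance, inferInstance, A, sig,
    inferInstance, isClosed_A, ⟨characters⟩, ⟨fun f hf g hg h => exponentials f hf g hg h⟩, ?_,
    ?_, ?_, ?_⟩
  · -- the support contains (1,1) and (1,-1)
    have hhalf : (fourier 1 (((1 / 2 : ℝ) : ℝ) : 𝕋) : ℂ) = -1 := by
      rw [fourier_coe_apply]
      have : (2 * (Real.pi : ℂ) * Complex.I * ((1 : ℤ) : ℂ) * ((1 / 2 : ℝ) : ℂ) / ((1 : ℝ) : ℂ)) =
          Real.pi * Complex.I := by
        push_cast; ring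
      rw [this, Complex.exp_pi_mul_I]
    refine ⟨iota (0, 0), iota_mem_support _, iota (0, ((1 / 2 : ℝ) : 𝕋)), iota_mem_support _, ?_⟩
    intro h
    have h1 : (fourier 1 (0 : 𝕋) : ℂ) = (fourier 1 (((1 / 2 : ℝ) : ℝ) : 𝕋) : ℂ) :=
      congrArg (fun p : Sp => p.1.2) h
    rw [hhalf, fourier_eval_zero] at h1
    norm_num at h1
  · -- (H1)
    intro F hF hreal
    obtain ⟨c, hc⟩ := cond_H1 ⟨F, hF.1⟩ (mem_Asigma_of_mem ⟨F, hF.1⟩ hF) hreal
    exact ⟨c, hc⟩
  · -- (H2)
    intro F hF
    refine mem_closure_explicit {F : Linfty sig | ∃ f ∈ A, ∃ g ∈ A, F = toLinfty sig (f + star g)}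
      _ ?_ ⟨F, hF⟩ (cond_H2 _)
    rintro _ ⟨f, hf, g, hg, rfl⟩
    exact ⟨f + star g, ⟨f, hf, g, hg, fun _ => rfl⟩, coeFn_toLinfty sig _⟩
  · rintro ⟨Φ, hΦ⟩
    have hhalf : (fourier 1 (((1 / 2 : ℝ) : ℝ) : 𝕋) : ℂ) = ((-1 : ℝ) : ℂ) := by
      rw [fourier_coe_apply]
      have : (2 * (Real.pi : ℂ) * Complex.I * ((1 : ℤ) : ℂ) * ((1 / 2 : ℝ) : ℂ) / ((1 : ℝ) : ℂ)) =
          Real.pi * Complex.I := by
        push_cast; ring
      rw [this, Complex.exp_pi_mul_I]
      norm_num
    set u : Sp →ₘ[sig] ℂ := (toLinfty sig (psi (gpos 1))).1 with hu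
    set v : Sp →ₘ[sig] ℂ := (toLinfty sig (psi (gpos (-1)))).1 with hv
    have hum : u ∈ ASigma (A : Set C(Sp, ℂ)) sig := mk_mem_ASigma _ (psi_mem _)
    have hvm : v ∈ ASigma (A : Set C(Sp, ℂ)) sig := mk_mem_ASigma _ (psi_mem _)
    have h0 : (toLinfty sig (0 : C(Sp, ℂ))).1 = (0 : Sp →ₘ[sig] ℂ) :=
      congrArg Subtype.val (map_zero (toLinfty sig))
    have h0m : (0 : Sp →ₘ[sig] ℂ) ∈ ASigma (A : Set C(Sp, ℂ)) sig := by
      rw [← h0]; exact mk_mem_ASigma _ A.zero_mem
    have hΦ0 : Φ 0 = 0 := by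
      have h1 := hΦ.map_smul 0 0 h0m
      rwa [smul_zero, zero_smul] at h1
    have huv : u * v = 0 := by
      have h1 : toLinfty sig (psi (gpos 1)) * toLinfty sig (psi (gpos (-1))) = 0 := by
        rw [← map_mul, psi_mul_psi, map_zero]
      exact congrArg Subtype.val h1
    have h1 : Φ u * Φ v = 0 := by rw [← hΦ.map_mul u hum v hvm, huv, hΦ0]
    rcases hinf_domain _ _ (hΦ.bijOn.mapsTo hum) (hΦ.bijOn.mapsTo hvm) h1 with h2 | h2
    · have h3 : u = 0 := hΦ.bijOn.injOn hum h0m (by rw [h2, hΦ0])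
      exact psi_gpos_ne 1 0 (by rw [fourier_eval_zero]; norm_num) (by norm_num)
        (Subtype.ext h3)
    · have h3 : v = 0 := hΦ.bijOn.injOn hvm h0m (by rw [h2, hΦ0])
      exact psi_gpos_ne (-1) _ hhalf (by norm_num) (Subtype.ext h3)

end Pool.Agent.Results.MP_ca8afd_an.Lexicographic
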